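import Pool.Agent.W626.AH.Stm

/-!
AH-LOX: a ping-pong criterion for loxodromic elements.
-/

set_option autoImplicit false

namespace Pool.Agent.W293.AH.Lox

open Pool.Agent.W626.AH

/-- alternating words -/
def wd {G : Type} [Group G] (a b : G) : ℕ → G
  | 0 => 1
  | n + 1 => wd a b n * (if n % 2 = 0 then a else b)

theorem wd_two {G : Type} [Group G] (a b : G) (k : ℕ) : wd a b (2 * k) = (a * b) ^ k := by
  induction k with
  | zero => rw [pow_zero]; rfl
  | succ k ih =>
    have h1 : wd a b (2 * (k + 1)) = wd a b (2 * k) * (if (2 * k) % 2 = 0 then a else b)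
        * (if (2 * k + 1) % 2 = 0 then a else b) := rfl
    rw [h1, ih, if_pos (by omega), if_neg (by omega), pow_succ, mul_assoc]

theorem main : S_lox := by
  intro G S _ _ d hd hH hI a b x c hc hab hba
  obtain ⟨L, hL⟩ : ∃ L, L = max (d x (a • x)) (d x (b • x)) := ⟨_, rfl⟩
  rw [← hL] at hab hba
  have hLa : d x (a • x) ≤ L := by rw [hL]; exact le_max_left _ _
  have hLb : d x (b • x) ≤ L := by rw [hL]; exact le_max_right _ _
  obtain ⟨X, hX⟩ : ∃ X : ℕ → S, X = fun n => wd a b n • x := ⟨_, rfl⟩
  have hX0 : X 0 = x := by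
    rw [hX]
    exact one_smul G x
  have h1 : ∀ n, d (X n) (X (n + 1)) ≤ L := by
    intro n
    rw [hX]
    show d (wd a b n • x) ((wd a b n * (if n % 2 = 0 then a else b)) • x) ≤ L
    rw [mul_smul, hI]
    split_ifs
    · exact hLa
    · exact hLb
  have h2 : ∀ n, L + 1 + c ≤ d (X n) (X (n + 2)) := by
    intro n
    rw [hX]
    show L + 1 + c ≤ d (wd a b n • x) ((wd a b n * (if n % 2 = 0 then a else b)
      * (if (n + 1) % 2 = 0 then a else b)) • x)
    rw [mul_assoc, mul_smul, hI]
    rcases Nat.mod_two_eq_zero_or_one n with h | h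
    · rw [if_pos h, if_neg (by omega)]
      exact hab
    · rw [if_neg (by omega), if_pos (by omega)]
      exact hba
  have h3 : ∀ n, d (X 0) (X (n + 1)) + c ≤ d (X 0) (X (n + 2)) := by
    intro n
    induction n with
    | zero =>
      have e1 := h1 0
      have e2 := h2 0
      simp only [zero_add] at e1 e2 ⊢
      linarith
    | succ n ih =>
      have e1 := h1 (n + 1)
      have e2 := h2 (n + 1)
      have e3 := h1 (n + 2)
      have e4 := hH (X (n + 1)) (X (n + 3)) (X (n + 2)) (X 0)
      rw [hd.symm (X (n + 2)) (X 0), hd.symm (X (n + 3)) (X 0), hd.symm (X (n + 1)) (X 0),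
        hd.symm (X (n + 3)) (X (n + 2))] at e4
      show d (X 0) (X (n + 2)) + c ≤ d (X 0) (X (n + 3))
      change d (X (n + 1)) (X (n + 2)) ≤ L at e1
      change L + 1 + c ≤ d (X (n + 1)) (X (n + 3)) at e2
      change d (X (n + 2)) (X (n + 3)) ≤ L at e3
      rcases max_choice (d (X (n + 1)) (X (n + 2)) + d (X 0) (X (n + 3)))
        (d (X 0) (X (n + 1)) + d (X (n + 2)) (X (n + 3))) with h | h
      · rw [h] at e4
        linarith
      · rw [h] at e4
        linarith
  have h0 : ∀ y z, 0 ≤ d y z := by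
    intro y z
    have e1 := hd.tri y z y
    rw [hd.self, hd.symm z y] at e1
    linarith
  have h4 : ∀ n : ℕ, c * n ≤ d (X 0) (X (n + 1)) := by
    intro n
    induction n with
    | zero =>
      rw [Nat.cast_zero, mul_zero]
      exact h0 _ _
    | succ n ih =>
      have := h3 n
      push_cast
      show c * ((n : ℝ) + 1) ≤ d (X 0) (X (n + 2))
      linarith
  refine ⟨x, c, c, hc, fun k => ?_⟩
  rw [← wd_two]
  have e : d x (wd a b (2 * k) • x) = d (X 0) (X (2 * k)) := by rw [hX0, hX]
  rw [e]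
  rcases k with _ | k
  · rw [Nat.cast_zero, mul_zero]
    have := h0 (X 0) (X (2 * 0))
    linarith
  · have e1 := h4 (2 * k + 1)
    push_cast at e1 ⊢
    have e2 : d (X 0) (X (2 * (k + 1))) = d (X 0) (X (2 * k + 1 + 1)) := rfl
    rw [e2]
    have e3 : 0 ≤ c * (k : ℝ) := by positivity
    linarith

end Pool.Agent.W293.AH.Lox
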